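import Pool.Agent.P.MP_a84a61_al.Z.Fin

namespace Pool.Agent.Results.MP_a84a61_al.CharZero

/-- Over every field of characteristic zero there is a group of matrices whose laws have no
finite basis. -/
theorem result (K : Type) [Field K] [CharZero K] :
    ∃ (n : ℕ) (G : Subgroup (Matrix.GeneralLinearGroup (Fin n) K)),
      ¬ ∃ S : Finset (FreeGroup ℕ), ∀ w : FreeGroup ℕ,
        (∀ f : ℕ → G, FreeGroup.lift f w = 1) ↔
          w ∈ Subgroup.normalClosure
            {u : FreeGroup ℕ | ∃ φ : FreeGroup ℕ →* FreeGroup ℕ, ∃ s ∈ S, u = φ s} := by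
  obtain ⟨G, -, h3⟩ := Pool.Agent.P.MP_a84a61_al.Z.main
  have hinj : Function.Injective
      (Matrix.GeneralLinearGroup.map (n := Fin 36) (Int.castRingHom K)) := by
    intro A B h
    ext i j
    have := congrArg (fun M : Matrix.GeneralLinearGroup (Fin 36) K => M.1 i j) h
    simpa using this
  refine ⟨36, G.map (Matrix.GeneralLinearGroup.map (Int.castRingHom K)), ?_⟩
  let e := G.equivMapOfInjective _ hinj
  have key : ∀ {A B : Type} [Group A] [Group B] (e : A ≃* B) (w : FreeGroup ℕ),
      (∀ f : ℕ → A, FreeGroup.lift f w = 1) → ∀ f : ℕ → B, FreeGroup.lift f w = 1 := by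
    intro A B _ _ e w h f
    have h1 : FreeGroup.lift f = e.toMonoidHom.comp (FreeGroup.lift fun i => e.symm (f i)) := by
      ext i
      simp
    rw [h1, MonoidHom.comp_apply, h, map_one]
  rintro ⟨S, hS⟩
  exact h3 ⟨S, fun w => ⟨fun h => (hS w).1 (key e w h), fun h => key e.symm w ((hS w).2 h)⟩⟩

end Pool.Agent.Results.MP_a84a61_al.CharZero
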