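import Pool.Agent.P.MP_a84a61_al.Odd.Main

namespace Pool.Agent.Results.MP_a84a61_al.OddChar

/-- Over every infinite field of odd characteristic there is a group of matrices whose laws have
no finite basis. -/
theorem result (p : ℕ) (hp : p.Prime) (h2 : p ≠ 2) (K : Type) [Field K] [CharP K p] [Infinite K] :
    ∃ (n : ℕ) (G : Subgroup (Matrix.GeneralLinearGroup (Fin n) K)),
      ¬ ∃ S : Finset (FreeGroup ℕ), ∀ w : FreeGroup ℕ,
        (∀ f : ℕ → G, FreeGroup.lift f w = 1) ↔
          w ∈ Subgroup.normalClosure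
            {u : FreeGroup ℕ | ∃ φ : FreeGroup ℕ →* FreeGroup ℕ, ∃ s ∈ S, u = φ s} :=
  have := Fact.mk hp
  Pool.Agent.P.MP_a84a61_al.Odd.main h2

end Pool.Agent.Results.MP_a84a61_al.OddChar
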